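import Pool.Agent.H591R2.Tri.T5c

/-!
# Polygons with at most 8 non-paying vertices: normalisation and the theorem
-/

namespace Pool.Agent.H171R2.Tri

open Finset T5

theorem t5' : Stmt_T5' := by
  intro V L p d lp np htri hpoly hmin hnpper H1 H2 H3 H4 hcard
  have hodd := hpoly.odd
  have hLpos : 0 < L := hodd.pos
  -- consecutive parities
  have hpar : ∀ k : ℤ, (d k = d (k - 1) ∧ par (d k) = par (d (k - 1))) ∨
      (d k ≠ d (k - 1) ∧ par (d k) = !par (d (k - 1))) := by
    intro k
    have ht := hpoly.turn (k - 1)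
    rw [sub_add_cancel] at ht
    by_cases h0 : d k = d (k - 1)
    · exact Or.inl ⟨h0, by rw [h0]⟩
    · right
      refine ⟨h0, ?_⟩
      rcases ht with ht | ht | ht
      · exact absurd ht h0
      · rw [ht, par_add_one]
      · rw [ht, par_sub_one]
  -- functions on the period
  let hi : ℤ → ℤ := fun k => if par (d k) ≠ lp then 1 else 0
  let sh : ℤ → ℤ := fun k => if d k = d (k - 1) ∧ par (d k) ≠ lp then 1 else 0
  let sl : ℤ → ℤ := fun k => if d k = d (k - 1) ∧ par (d k) = lp then 1 else 0
  let nn : ℤ → ℤ := fun k => if np k = true then 1 else 0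
  have hi_per : ∀ k, hi (k + L) = hi k := fun k => by simp only [hi, hpoly.perd]
  have sh_per : ∀ k, sh (k + L) = sh k := fun k => by
    simp only [sh, hpoly.perd, show k + (L : ℤ) - 1 = (k - 1) + L by ring]
  have sl_per : ∀ k, sl (k + L) = sl k := fun k => by
    simp only [sl, hpoly.perd, show k + (L : ℤ) - 1 = (k - 1) + L by ring]
  have nn_per : ∀ k, nn (k + L) = nn k := fun k => by simp only [nn, hnpper]
  have hpt : ∀ k, sh k - sl k = hi k + hi (k - 1) - 1 := by
    intro k
    simp only [sh, sl, hi]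
    rcases hpar k with ⟨h0, h1⟩ | ⟨h0, h1⟩
    · by_cases h2 : par (d k) = lp
      · rw [if_neg (fun hh => hh.2 h2), if_pos ⟨h0, h2⟩, if_neg (fun hh => hh h2),
          if_neg (fun hh => hh (h1 ▸ h2))]
        norm_num
      · rw [if_pos ⟨h0, h2⟩, if_neg (fun hh => h2 hh.2), if_pos h2, if_pos (h1 ▸ h2)]
        norm_num
    · rw [if_neg (fun hh => h0 hh.1), if_neg (fun hh => h0 hh.1)]
      by_cases h2 : par (d k) = lp
      · have h3 : par (d (k - 1)) ≠ lp := by
          intro hh
          rw [h2, hh] at h1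
          cases lp <;> simp at h1
        rw [if_neg (fun hh => hh h2), if_pos h3]
        norm_num
      · have h3 : par (d (k - 1)) = lp := by
          cases hp : par (d (k - 1)) <;> cases lp <;> simp_all
        rw [if_pos h2, if_neg (fun hh => hh h3)]
        norm_num
  have hsum : ∑ k ∈ range L, sh (k : ℤ) - ∑ k ∈ range L, sl (k : ℤ) =
      2 * ∑ k ∈ range L, hi (k : ℤ) - L := by
    rw [← Finset.sum_sub_distrib, Finset.sum_congr rfl (fun (k : ℕ) _ => hpt (k : ℤ)),
      Finset.sum_sub_distrib, Finset.sum_add_distrib]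
    have h1 : ∑ k ∈ range L, hi ((k : ℤ) - 1) = ∑ k ∈ range L, hi (k : ℤ) := by
      rw [← sum_period hi_per (-1)]
      refine Finset.sum_congr rfl fun k _ => ?_
      rw [show (k : ℤ) - 1 = -1 + k by ring]
    rw [h1]
    simp
    ring
  -- non-paying vertices
  have hnn : ∀ k, sh k + sl k ≤ nn k := by
    intro k
    simp only [sh, sl, nn]
    by_cases h0 : d k = d (k - 1)
    · have h1 : np k = true := by
        have := H1 (k - 1) (by rw [sub_add_cancel]; exact h0)
        rwa [sub_add_cancel] at this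
      rw [if_pos h1]
      by_cases h2 : par (d k) = lp
      · rw [if_neg (fun hh => hh.2 h2), if_pos ⟨h0, h2⟩]
        norm_num
      · rw [if_pos ⟨h0, h2⟩, if_neg (fun hh => h2 hh.2)]
        norm_num
    · rw [if_neg (fun hh => h0 hh.1), if_neg (fun hh => h0 hh.1)]
      split_ifs <;> norm_num
  have hnn8 : ∑ k ∈ range L, nn (k : ℤ) ≤ 8 := by
    have := card_filter_eq (L := L) (fun k : ℕ => np (k : ℤ) = true)
    simp only [nn]
    rw [← this]
    exact_mod_cast hcard
  have hshsl : ∑ k ∈ range L, sh (k : ℤ) + ∑ k ∈ range L, sl (k : ℤ) ≤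
      ∑ k ∈ range L, nn (k : ℤ) := by
    rw [← Finset.sum_add_distrib]
    exact Finset.sum_le_sum fun k _ => hnn k
  have hsl0 : 0 ≤ ∑ k ∈ range L, sl (k : ℤ) := Finset.sum_nonneg fun k _ => by
    simp only [sl]
    split_ifs <;> norm_num
  -- minority
  have hmin' : (L : ℤ) < 2 * ∑ k ∈ range L, hi (k : ℤ) := by
    unfold Minority at hmin
    have h1 := card_filter_eq (L := L) (fun k : ℕ => par (d (k : ℤ)) = lp)
    have h2 := card_filter_eq (L := L) (fun k : ℕ => par (d (k : ℤ)) ≠ lp)
    have h3 : (((range L).filter (fun k : ℕ => par (d (k : ℤ)) = lp)).card : ℤ) <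
      ((range L).filter (fun k : ℕ => par (d (k : ℤ)) ≠ lp)).card := by exact_mod_cast hmin
    have h4 : (((range L).filter (fun k : ℕ => par (d (k : ℤ)) = lp)).card : ℤ) +
      ((range L).filter (fun k : ℕ => par (d (k : ℤ)) ≠ lp)).card = L := by
      have := Finset.card_filter_add_card_filter_not (s := range L)
        (fun k : ℕ => par (d (k : ℤ)) = lp)
      rw [Finset.card_range] at this
      exact_mod_cast this
    rw [h2] at h3 h4
    have h5 : ∑ k ∈ range L, hi (k : ℤ) =
      ∑ k ∈ range L, if par (d (k : ℤ)) ≠ lp then (1 : ℤ) else 0 := rfl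
    rw [h5]
    linarith
  -- modulo 3
  have hmod : ((2 * ∑ k ∈ range L, hi (k : ℤ) - L : ℤ) : ZMod 3) = 0 := by
    have h1 : ∀ n : ℕ, (((p (n : ℤ)).1 - (p (n : ℤ)).2 : ℤ) : ZMod 3) =
        (((p 0).1 - (p 0).2 : ℤ) : ZMod 3) +
          ∑ k ∈ range n, if par (d (k : ℤ)) then (-1 : ZMod 3) else 1 := by
      intro n
      induction n with
      | zero => simp
      | succ n ih =>
        rw [Finset.sum_range_succ, ← add_assoc, ← ih, ← chi_e]
        have := hpoly.step (n : ℤ)
        rw [show ((n + 1 : ℕ) : ℤ) = (n : ℤ) + 1 by push_cast; ring, this]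
        simp only [Prod.fst_add, Prod.snd_add]
        push_cast
        ring
    have h2 := h1 L
    have h3 : p (L : ℤ) = p 0 := by
      have := hpoly.per 0
      rwa [zero_add] at this
    rw [h3] at h2
    have h4 : ∑ k ∈ range L, (if par (d (k : ℤ)) then (-1 : ZMod 3) else 1) = 0 := by
      have := h2
      rwa [left_eq_add] at this
    have h5 : ((2 * ∑ k ∈ range L, hi (k : ℤ) - L : ℤ) : ZMod 3) =
        ∑ k ∈ range L, (2 * ((hi (k : ℤ) : ℤ) : ZMod 3) - 1) := by
      push_cast
      rw [Finset.sum_sub_distrib, Finset.mul_sum]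
      simp
    rw [h5]
    cases lp with
    | true =>
      rw [← h4]
      refine Finset.sum_congr rfl fun k _ => ?_
      simp only [hi]
      cases par (d (k : ℤ)) <;> decide
    | false =>
      have h6 : ∑ k ∈ range L, (2 * ((hi (k : ℤ) : ℤ) : ZMod 3) - 1) =
          -∑ k ∈ range L, (if par (d (k : ℤ)) then (-1 : ZMod 3) else 1) := by
        rw [← Finset.sum_neg_distrib]
        refine Finset.sum_congr rfl fun k _ => ?_
        simp only [hi]
        cases par (d (k : ℤ)) <;> decide
      rw [h6, h4, neg_zero]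
  have h3dvd : (3 : ℤ) ∣ 2 * ∑ k ∈ range L, hi (k : ℤ) - L := by
    have := (ZMod.intCast_zmod_eq_zero_iff_dvd (2 * ∑ k ∈ range L, hi (k : ℤ) - L) 3).1 hmod
    exact_mod_cast this
  have hdiff : ∑ k ∈ range L, sh (k : ℤ) - ∑ k ∈ range L, sl (k : ℤ) = 3 := by
    obtain ⟨c, hc⟩ := h3dvd
    obtain ⟨t, ht⟩ := hodd
    have h0 : ∑ k ∈ range L, sh (k : ℤ) - ∑ k ∈ range L, sl (k : ℤ) = 3 * c := by rw [hsum, hc]
    have h1 : (0 : ℤ) < 3 * c := by rw [← hc]; linarith
    have h2 : 3 * c ≤ 8 := by linarith
    have h3 : (L : ℤ) = 2 * t + 1 := by exact_mod_cast ht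
    rw [h0]
    omega
  -- a straight vertex on a high side
  obtain ⟨k0, hk0, hk0'⟩ : ∃ k0 : ℤ, d k0 = d (k0 - 1) ∧ par (d k0) ≠ lp := by
    by_contra hcon
    push Not at hcon
    have h1 : ∑ k ∈ range L, sh (k : ℤ) = 0 := Finset.sum_eq_zero fun k _ => by
      simp only [sh]
      exact if_neg fun hh => hh.2 (hcon _ hh.1)
    rw [h1] at hdiff
    linarith
  -- a corner before it
  have hcorner : ∃ n : ℕ, d (k0 - n) ≠ d (k0 - n - 1) := by
    by_contra hcon
    push Not at hcon
    have h1 : ∀ n : ℕ, d (k0 - n) = d k0 := by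
      intro n
      induction n with
      | zero => simp
      | succ n ih =>
        rw [← ih, hcon n]
        congr 1
        push_cast
        ring
    have h2 : ∀ n : ℕ, p k0 = p (k0 - n) + n • e (d k0) := by
      intro n
      induction n with
      | zero => simp
      | succ n ih =>
        rw [ih]
        have := hpoly.step (k0 - (n + 1 : ℕ))
        rw [show k0 - ((n + 1 : ℕ) : ℤ) + 1 = k0 - n by push_cast; ring, h1 (n + 1)] at this
        rw [this, succ_nsmul']
        abel
    have h3 := h2 L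
    have h4 : p (k0 - L) = p k0 := by
      have := hpoly.per (k0 - L)
      rw [sub_add_cancel] at this
      exact this.symm
    rw [h4, left_eq_add] at h3
    have h5 : e (d k0) = 0 := by
      have h6 : L • (e (d k0)).1 = (0 : ℤ) := congrArg Prod.fst h3
      have h7 : L • (e (d k0)).2 = (0 : ℤ) := congrArg Prod.snd h3
      have h8 : (L : ℤ) ≠ 0 := by exact_mod_cast hLpos.ne'
      rw [nsmul_eq_mul, mul_eq_zero] at h6 h7
      refine Prod.ext ?_ ?_
      · exact h6.resolve_left h8
      · exact h7.resolve_left h8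
    exact e_ne _ h5
  classical
  let n0 := Nat.find hcorner
  have hn0 : d (k0 - n0) ≠ d (k0 - n0 - 1) := Nat.find_spec hcorner
  have hn0min : ∀ m < n0, d (k0 - m) = d (k0 - m - 1) := by
    intro m hm
    by_contra hcon
    exact Nat.find_min hcorner hm hcon
  have hn0pos : 0 < n0 := by
    rcases Nat.eq_zero_or_pos n0 with h | h
    · rw [h] at hn0
      simp only [Nat.cast_zero, sub_zero] at hn0
      exact absurd hk0 hn0
    · exact h
  have hall : ∀ m ≤ n0, d (k0 - m) = d k0 := by
    intro m hm
    induction m with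
    | zero => simp
    | succ m ih =>
      rw [← ih (by omega), hn0min m (by omega)]
      congr 1
      push_cast
      ring
  set a : ℤ := k0 - n0 with ha
  have hda : d a = d k0 := hall n0 le_rfl
  have hda1 : d (a + 1) = d a := by
    rw [hda, ← hall (n0 - 1) (by omega)]
    congr 1
    rw [ha]
    push_cast [Nat.cast_sub (show 1 ≤ n0 by omega)]
    ring
  have hpa : par (d a) ≠ lp := by rw [hda]; exact hk0'
  -- the normalised polygon
  let c : ZMod 6 := d a
  let D : ℤ → ZMod 6 := fun k => d (a + k) - c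
  let P : ℤ → Pt := fun k => rot c (p (a + k) - p a)
  have hD : ∀ k k', D k = D k' ↔ d (a + k) = d (a + k') := by
    intro k k'
    simp only [D, sub_left_inj]
  have hparD : ∀ k, par (D k) = true ↔ par (d (a + k)) = lp := by
    intro k
    simp only [D]
    rw [par_sub]
    have : par c = !lp := by
      have h1 : par (d a) ≠ lp := hpa
      show par (d a) = !lp
      cases h2 : par (d a) <;> cases lp <;> simp_all
    rw [this]
    cases par (d (a + k)) <;> cases lp <;> simp
  have hparD' : ∀ k, par (D k) = false ↔ par (d (a + k)) ≠ lp := by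
    intro k
    rw [← Bool.not_eq_true, hparD]
  have hN : Nrm {u | ∃ v ∈ V, u = rot c (v - p a)} L P D (fun k => np (a + k)) := by
    refine ⟨?_, ⟨hodd, ?_, ?_, ?_, ?_, ?_, ?_⟩, ?_, ?_, ?_, ?_, ?_, ?_, ?_, ?_, ?_, ?_⟩
    · -- triangle-free
      rintro u ⟨v, hv, rfl⟩ k ⟨v1, hv1, h1⟩ ⟨v2, hv2, h2⟩
      have e1 : v + e (k + c) = v1 := by
        have h3 : rot c (v + e (k + c) - p a) = rot c (v1 - p a) := by
          rw [← h1, show v + e (k + c) - p a = (v - p a) + e (k + c) by abel, rot_add, rot_e,
            add_sub_cancel_right]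
        have := rot_inj h3
        exact sub_left_injective this
      have e2 : v + e (k + c + 1) = v2 := by
        have h3 : rot c (v + e (k + c + 1) - p a) = rot c (v2 - p a) := by
          rw [← h2, show v + e (k + c + 1) - p a = (v - p a) + e (k + c + 1) by abel, rot_add,
            rot_e, show k + c + 1 - c = k + 1 by ring]
        have := rot_inj h3
        exact sub_left_injective this
      exact htri v hv (k + c) (e1 ▸ hv1) (e2 ▸ hv2)
    · -- step
      intro k
      simp only [P, D]
      rw [← rot_e, ← rot_add]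
      congr 1
      rw [show a + (k + 1) = (a + k) + 1 by ring, hpoly.step]
      abel
    · intro k
      simp only [P]
      rw [show a + (k + (L : ℤ)) = (a + k) + L by ring, hpoly.per]
    · intro k
      simp only [D]
      rw [show a + (k + (L : ℤ)) = (a + k) + L by ring, hpoly.perd]
    · intro j k hjk
      have h1 := rot_inj hjk
      have h2 : p (a + j) = p (a + k) := sub_left_injective h1
      have h3 := hpoly.inj _ _ h2
      rwa [show a + j - (a + k) = j - k by ring] at h3
    · intro k
      simp only [D]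
      rw [show a + (k + 1) = (a + k) + 1 by ring]
      rcases hpoly.turn (a + k) with h1 | h1 | h1
      · left; rw [h1]
      · right; left; rw [h1]; ring
      · right; right; rw [h1]; ring
    · intro k
      exact ⟨p (a + k), hpoly.mem _, rfl⟩
    · simp only [P, add_zero, sub_self]
      unfold rot
      simp
    · simp only [D, add_zero, c, sub_self]
    · simp only [D, c, hda1, sub_self]
    · intro h1
      have h2 : D (-1) = D 0 := by
        rw [h1]
        simp only [D, add_zero, c, sub_self]
      rw [hD] at h2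
      rw [add_zero, show a + (-1) = a - 1 by ring] at h2
      exact hn0 h2.symm
    · intro k hk
      rw [hD, show a + (k + 1) = (a + k) + 1 by ring] at hk
      show np (a + (k + 1)) = true
      rw [show a + (k + 1) = (a + k) + 1 by ring]
      exact H1 _ hk
    · intro k h1 h2 h3 h4
      show np (a + (k + 1)) = true
      rw [Ne, hD] at h1 h3
      rw [hD] at h4
      rw [show a + (k + 1) = (a + k) + 1 by ring] at h1 h4 ⊢
      rw [show a + (k - 1) = (a + k) - 1 by ring] at h3
      rw [show a + (k + 2) = (a + k) + 2 by ring] at h4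
      exact H2 _ h1 ((hparD k).1 h2) h3 h4
    · intro k h1 h2 h3 h4
      show np (a + (k + 1)) = true
      rw [Ne, hD] at h1 h4
      rw [hD] at h3
      rw [show a + (k + 1) = (a + k) + 1 by ring] at h1 h4 ⊢
      rw [show a + (k - 1) = (a + k) - 1 by ring] at h3
      rw [show a + (k + 2) = (a + k) + 2 by ring] at h4
      exact H3 _ h1 ((hparD' k).1 h2) h3 h4
    · intro k h1 h2
      have h3 := H4 (a + k) h1 (by rw [show a + k + 1 = a + (k + 1) by ring]; exact h2)
      simp only [D]
      rw [show a + (k + 1) = (a + k) + 1 by ring, show a + (k - 1) = (a + k) - 1 by ring]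
      linear_combination h3
    · -- the number of non-paying vertices
      have h1 : ((NP (fun k => np (a + k)) 1 (L + 1) : ℕ) : ℤ) = ∑ k ∈ range L, nn (k : ℤ) := by
        rw [← sum_period nn_per (a + 1)]
        unfold NP
        rw [Finset.sum_Ico_eq_sum_range]
        push_cast
        try rw [Nat.add_sub_cancel]
        refine Finset.sum_congr rfl fun k _ => ?_
        simp only [nn]
        rw [show a + (1 + (k : ℤ)) = a + 1 + k by ring]
      have : ((NP (fun k => np (a + k)) 1 (L + 1) : ℕ) : ℤ) ≤ 8 := by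
        rw [h1]; exact hnn8
      exact_mod_cast this
    · have h1 : ((SH D (L + 1) : ℕ) : ℤ) = ∑ k ∈ range L, sh (k : ℤ) := by
        rw [← sum_period sh_per (a + 1)]
        unfold SH
        rw [Finset.sum_Ico_eq_sum_range]
        push_cast
        try rw [Nat.add_sub_cancel]
        refine Finset.sum_congr rfl fun k _ => ?_
        simp only [sh]
        refine if_congr ?_ rfl rfl
        rw [hD, hparD', show a + (1 + (k : ℤ)) = a + 1 + k by ring,
          show a + (1 + (k : ℤ) - 1) = a + 1 + k - 1 by ring]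
      have h2 : ((SL D (L + 1) : ℕ) : ℤ) = ∑ k ∈ range L, sl (k : ℤ) := by
        rw [← sum_period sl_per (a + 1)]
        unfold SL
        rw [Finset.sum_Ico_eq_sum_range]
        push_cast
        try rw [Nat.add_sub_cancel]
        refine Finset.sum_congr rfl fun k _ => ?_
        simp only [sl]
        refine if_congr ?_ rfl rfl
        rw [hD, hparD, show a + (1 + (k : ℤ)) = a + 1 + k by ring,
          show a + (1 + (k : ℤ) - 1) = a + 1 + k - 1 by ring]
      have h3 : ((SH D (L + 1) : ℕ) : ℤ) = ((SL D (L + 1) : ℕ) : ℤ) + 3 := by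
        rw [h1, h2]; linarith
      exact_mod_cast h3
  obtain ⟨r, hr, W, hW, hWL, hj⟩ := hN.concl
  refine ⟨a + r, (hparD' _).1 hr, W, hW, hWL, fun j hjL => ?_⟩
  rw [hj j hjL]
  unfold tc
  rw [show a + (r : ℤ) + j = a + (r + j) by ring, show a + ((r : ℤ) + j) - 1 = a + (r + j - 1) by ring]
  simp only [D]
  have e1 : d (a + (↑r + ↑j)) - c = d (a + (↑r + ↑j - 1)) - c ↔
      d (a + (↑r + ↑j)) = d (a + (↑r + ↑j - 1)) := sub_left_inj
  have e2 : d (a + (↑r + ↑j)) - c = d (a + (↑r + ↑j - 1)) - c + 1 ↔
      d (a + (↑r + ↑j)) = d (a + (↑r + ↑j - 1)) + 1 := by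
    rw [show d (a + (↑r + ↑j - 1)) - c + 1 = d (a + (↑r + ↑j - 1)) + 1 - c by ring]
    exact sub_left_inj
  simp only [e1, e2]

/-- T5 for triangle-free sets with the list `words` -/
theorem t5_words (V : Set Pt) (L : ℕ) (p : ℤ → Pt) (d : ℤ → ZMod 6) (lp : Bool) (np : ℤ → Bool)
    (h0 : TriFree V) (h1 : IsPoly V L p d) (h2 : Minority L d lp) (h3 : ∀ k, np (k + L) = np k)
    (h4 : ∀ k, d (k + 1) = d k → np (k + 1) = true)
    (h5 : ∀ k, d (k + 1) ≠ d k → par (d k) = lp → d (k - 1) ≠ d k → d (k + 2) = d (k + 1) →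
      np (k + 1) = true)
    (h6 : ∀ k, d (k + 1) ≠ d k → par (d k) ≠ lp → d (k - 1) = d k → d (k + 2) ≠ d (k + 1) →
      np (k + 1) = true)
    (h7 : ∀ k, np k = false → np (k + 1) = false → d (k + 1) - d k = d k - d (k - 1))
    (h8 : ((range L).filter (fun k : ℕ => np (k : ℤ) = true)).card ≤ 8) :
    ∃ a : ℤ, par (d a) ≠ lp ∧ ∃ W ∈ words, W.length = L ∧
      ∀ j : ℕ, j < L → W.getD j 0 = tc d (a + j) := by
  obtain ⟨a, ha, W, hW, h⟩ := t5' V L p d lp np h0 h1 h2 h3 h4 h5 h6 h7 h8
  exact ⟨a, ha, W, words22_subset W hW, h⟩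

end Pool.Agent.H171R2.Tri
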