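import Pool.Agent.H171R2.Tri.Core

/-!
# The exhaustive search for polygons with at most 8 non-paying vertices

A polygon is a closed walk on the triangular lattice, turning by at most 60 degrees. Points are
given by the shifted coordinates `X = x + 20`, `Y = y + 20`. The arguments of the search are: the
current point, the direction of the last edge, the forbidden points (bit `40 X + Y`), the numbers
of straight vertices on even and on odd edges, lower bounds for the number of non-paying corners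
(if the last vertex is non-paying, resp. paying), the turn code of the last vertex, a condition on
the next vertex (`1`: corner, `2`: straight) in case the last vertex pays, the turns so far.
-/

namespace Pool.Agent.H171R2.Tri.T5

abbrev G := ℕ → ℕ → ℕ → ℕ → ℕ → ℕ → ℕ → ℕ → ℕ → ℕ → List ℕ → Bool

def mn (a b : ℕ) : ℕ := cond (Nat.ble a b) a b
def mx (a b : ℕ) : ℕ := cond (Nat.ble a b) b a

/-- the turn words that may occur, beginning with the first vertex -/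
def leafs : List (List ℕ) :=
  [[1,0,0,0,1,1,1,2,1,1,2,1,1], [2,0,0,0,1,1,1,2,1,1,2,1,2,1,1,1,1],
   [1,0,0,0,1,1,1,2,1,2,1,1,1,2,1], [1,0,0,0,1,1,2,1,1,1,2,1,2,1,1],
   [2,0,0,0,1,2,2,2,2,1,2,1,2,2,1,2,2], [1,0,0,0,2,1,1,1,1,2,1,2,1,1,2,1,1],
   [2,0,0,0,2,2,1,2,2,2,1,2,1,2,2], [2,0,0,0,2,2,2,1,2,1,2,2,2,1,2],
   [1,0,0,0,2,2,2,1,2,2,1,2,1,2,2,2,2], [2,0,0,0,2,2,2,1,2,2,1,2,2],
   [1,0,0,1,1,0,1,1,2,1,1], [1,0,0,1,1,1,2,0,1,1,1,2,1], [1,0,0,1,1,1,2,1,1,0,1],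
   [2,0,0,1,1,1,2,1,1,0,2,1,1,1,1], [1,0,0,1,1,2,1,1,1,0,2,1,1],
   [2,0,0,1,2,2,2,2,1,0,2,2,1,2,2], [1,0,0,2,1,1,1,1,2,0,1,1,2,1,1],
   [2,0,0,2,2,0,2,2,1,2,2], [2,0,0,2,2,1,2,2,2,0,1,2,2], [2,0,0,2,2,2,1,0,2,2,2,1,2],
   [1,0,0,2,2,2,1,2,2,0,1,2,2,2,2], [2,0,0,2,2,2,1,2,2,0,2], [1,0,1,1,0,0,1,1,1,2,1],
   [2,0,1,1,1,2,1,1,0,0,1,1,1], [1,0,1,1,2,1,1,1,0,0,1], [2,0,1,1,2,1,1,1,0,0,2,1,1,1,1],
   [2,0,1,2,2,2,0,0,2,2,1,2,2], [2,0,1,2,2,2,2,1,0,0,2,2,2,1,2], [1,0,2,1,1,1,0,0,1,1,2,1,1],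
   [1,0,2,1,1,1,1,2,0,0,1,1,1,2,1], [2,0,2,2,0,0,2,2,2,1,2], [1,0,2,2,1,2,2,2,0,0,1,2,2,2,2],
   [2,0,2,2,1,2,2,2,0,0,2], [1,0,2,2,2,1,2,2,0,0,2,2,2]]

def eqL : List ℕ → List ℕ → Bool
  | [], [] => true
  | a :: l, b :: l' => Nat.beq a b && eqL l l'
  | _, _ => false

def memL (w : List ℕ) : List (List ℕ) → Bool
  | [] => false
  | l :: ls => eqL w l || memL w ls

/-- the walk is closed -/
def fin (nd nsh nsl nN nP k nm : ℕ) (w : List ℕ) : Bool :=
  cond (Nat.beq nd 1 || Nat.beq nd 5) (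
  cond (Nat.beq nsh (nsl + 3)) (
  cond (Nat.ble (nsh + nsl + cond (Nat.beq k 0) nN (mn nN (cond (Nat.beq nm 2) 99 nP) + 1)) 8)
    (memL (cond (Nat.beq nd 1) 2 1 :: (k :: w).reverse) leafs) true) true) true

/-- twice the shifted first coordinate of a direction -/
def ax (d : ℕ) : ℕ := (2310 >>> (2 * d)) % 4
/-- the shifted second coordinate of a direction -/
def ay (d : ℕ) : ℕ := (105 >>> (2 * d)) % 4

def cont (g : G) (X Y nd vis nsh nsl nN nP k nm : ℕ) (w : List ℕ) (r x1 y1 : ℕ) : Bool :=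
  cond (Nat.ble x1 (21 + r) && Nat.ble 21 (x1 + r) && Nat.ble y1 (21 + r) && Nat.ble 21 (y1 + r) &&
      Nat.ble (x1 + y1) (42 + r) && Nat.ble 42 (x1 + y1 + r)) (
    cond (Nat.beq x1 21 && Nat.beq y1 21) (fin nd nsh nsl nN nP k nm w) (
      cond (Nat.beq (Nat.land (Nat.shiftRight vis (40 * (x1 - 1) + (y1 - 1))) 1) 0) (
        g (x1 - 1) (y1 - 1) nd
          (Nat.lor vis (Nat.lor (Nat.shiftLeft 1 (40 * (x1 - 1) + (y1 - 1)))
            (Nat.lor (Nat.shiftLeft 1 (40 * (X + ax ((nd + 1) % 6) - 1) +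
                (Y + ay ((nd + 1) % 6) - 1)))
              (Nat.shiftLeft 1 (40 * (X + ax ((nd + 5) % 6) - 1) +
                (Y + ay ((nd + 5) % 6) - 1))))))
          nsh nsl nN nP k nm (k :: w)) true)) true

def pre (g : G) (X Y nd vis nsh nsl nN nP k nm : ℕ) (w : List ℕ) : Bool :=
  cond (Nat.ble (2 * mx nsl (nsh - 3) + 3 + mn nN nP) 8)
    (cont g X Y nd vis nsh nsl nN nP k nm w (18 - 2 * (nsh + nsl + mn nN nP))
      (X + ax nd) (Y + ay nd)) true

/-- straight on -/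
def try0 (g : G) (X Y d vis sh sl tN tP _lk m : ℕ) (w : List ℕ) : Bool :=
  pre g X Y d vis (sh + (1 - d % 2)) (sl + d % 2) (mn tN (cond (Nat.beq m 1) 99 tP)) 99 0 0 w

/-- a turn to the left (`s = 1`) or to the right (`s = 2`) -/
def tryc (g : G) (s : ℕ) (X Y d vis sh sl tN tP lk m : ℕ) (w : List ℕ) : Bool :=
  pre g X Y ((d + (cond (Nat.beq s 1) 1 5)) % 6) vis sh sl (mn tN (cond (Nat.beq m 2) 99 tP) + 1)
    (mn tN (cond (Nat.beq s lk) (cond (Nat.beq m 2) 99 tP) 99)) s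
    (cond (Nat.beq (d % 2) 1) (cond (Nat.beq lk 0) 0 1) (cond (Nat.beq lk 0) 2 0)) w

def body (g : G) : G := fun X Y d vis sh sl tN tP lk m w =>
  try0 g X Y d vis sh sl tN tP lk m w && tryc g 1 X Y d vis sh sl tN tP lk m w &&
    tryc g 2 X Y d vis sh sl tN tP lk m w

def go (n : ℕ) : G := Nat.rec (fun _ _ _ _ _ _ _ _ _ _ _ => false) (fun _ g => body g) n

/-- the forbidden points after the first two edges -/
def vis0 : ℕ := 0x1800000000380000000020000000000000000000000000000000000000000000000000000000000000000000000000000000000000000000000000000000000000000000000000000000000000000000000000000000000000000000000000000000000000000000000000000000000000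

theorem big0 : try0 (go 24) 22 20 0 vis0 1 0 0 99 0 0 [0] = true := by decide +kernel
theorem big1 : tryc (go 24) 1 22 20 0 vis0 1 0 0 99 0 0 [0] = true := by decide +kernel
theorem big2 : tryc (go 24) 2 22 20 0 vis0 1 0 0 99 0 0 [0] = true := by decide +kernel

theorem big : go 25 22 20 0 vis0 1 0 0 99 0 0 [0] = true := by
  show body (go 24) 22 20 0 vis0 1 0 0 99 0 0 [0] = true
  unfold body
  rw [big0, big1, big2]
  rfl

end Pool.Agent.H171R2.Tri.T5
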