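import Pool.Agent.H591R2.Tri.Search

/-!
# Soundness of the search
-/

namespace Pool.Agent.H171R2.Tri.T5

open Finset

/-! ### Norms -/

def Bd (u : Pt) (R : ℤ) : Prop := |u.1| ≤ R ∧ |u.2| ≤ R ∧ |u.1 + u.2| ≤ R

instance (u : Pt) (R : ℤ) : Decidable (Bd u R) := by unfold Bd; infer_instance

theorem Bd.add {u v : Pt} {R S : ℤ} (h : Bd u R) (h' : Bd v S) : Bd (u + v) (R + S) := by
  unfold Bd at *
  simp only [Prod.fst_add, Prod.snd_add, abs_le] at *
  omega

theorem Bd.neg {u : Pt} {R : ℤ} (h : Bd (-u) R) : Bd u R := by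
  unfold Bd at *
  simp only [Prod.fst_neg, Prod.snd_neg, abs_le] at *
  omega

theorem Bd.mono {u : Pt} {R S : ℤ} (h : Bd u R) (h' : R ≤ S) : Bd u S := by
  unfold Bd at *
  simp only [abs_le] at *
  omega

def arc (d s : ZMod 6) (n : ℕ) : Pt := ∑ m ∈ range n, e (d + s * m)

theorem arc_succ (d s : ZMod 6) (n : ℕ) : arc d s (n + 1) = e d + arc (d + s) s n := by
  unfold arc
  rw [Finset.sum_range_succ', add_comm]
  congr 1
  · simp
  · refine Finset.sum_congr rfl fun m _ => ?_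
    congr 1
    push_cast
    ring

theorem arc_small : ∀ n < 6, ∀ d : ZMod 6, Bd (arc d 1 n) 2 ∧ Bd (arc d (-1) n) 2 := by
  decide

theorem arc_six : ∀ d : ZMod 6, arc d 1 6 = 0 ∧ arc d (-1) 6 = 0 := by decide

theorem arc_add (d s : ZMod 6) (n m : ℕ) : arc d s (m + n) = arc d s m + arc (d + s * m) s n := by
  unfold arc
  rw [Finset.sum_range_add]
  congr 1
  refine Finset.sum_congr rfl fun x _ => ?_
  congr 1
  push_cast
  ring

theorem arc_bd (s : ZMod 6) (hs : s = 1 ∨ s = -1) (n : ℕ) : ∀ d : ZMod 6, Bd (arc d s n) 2 := by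
  induction n using Nat.strong_induction_on with
  | _ n ih =>
    intro d
    rcases Nat.lt_or_ge n 6 with h | h
    · rcases hs with rfl | rfl
      · exact (arc_small n h d).1
      · exact (arc_small n h d).2
    · obtain ⟨m, rfl⟩ := Nat.exists_eq_add_of_le h
      rw [arc_add]
      have h6 : arc d s 6 = 0 := by
        rcases hs with rfl | rfl
        · exact (arc_six d).1
        · exact (arc_six d).2
      rw [h6, zero_add]
      exact ih m (by omega) _

/-! ### Counting -/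

variable {V : Set Pt} {L : ℕ} {P : ℤ → Pt} {D : ℤ → ZMod 6} {np : ℤ → Bool}

def SH (D : ℤ → ZMod 6) (i : ℕ) : ℕ :=
  ∑ k ∈ Ico 1 i, if D (k : ℤ) = D ((k : ℤ) - 1) ∧ par (D (k : ℤ)) = false then 1 else 0

def SL (D : ℤ → ZMod 6) (i : ℕ) : ℕ :=
  ∑ k ∈ Ico 1 i, if D (k : ℤ) = D ((k : ℤ) - 1) ∧ par (D (k : ℤ)) = true then 1 else 0

def TC (D : ℤ → ZMod 6) (np : ℤ → Bool) (i : ℕ) : ℕ :=
  ∑ k ∈ Ico 1 i, if D (k : ℤ) ≠ D ((k : ℤ) - 1) ∧ np (k : ℤ) = true then 1 else 0

def NP (np : ℤ → Bool) (i j : ℕ) : ℕ := ∑ k ∈ Ico i j, if np (k : ℤ) = true then 1 else 0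

structure Nrm (V : Set Pt) (L : ℕ) (P : ℤ → Pt) (D : ℤ → ZMod 6) (np : ℤ → Bool) : Prop where
  tri : TriFree V
  poly : IsPoly V L P D
  P0 : P 0 = 0
  D0 : D 0 = 0
  D1 : D 1 = 0
  Dm : D (-1) ≠ 0
  h1 : ∀ k, D (k + 1) = D k → np (k + 1) = true
  h2 : ∀ k, D (k + 1) ≠ D k → par (D k) = true → D (k - 1) ≠ D k → D (k + 2) = D (k + 1) →
    np (k + 1) = true
  h3 : ∀ k, D (k + 1) ≠ D k → par (D k) = false → D (k - 1) = D k → D (k + 2) ≠ D (k + 1) →
    np (k + 1) = true
  h4 : ∀ k, np k = false → np (k + 1) = false → D (k + 1) - D k = D k - D (k - 1)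
  cnt : NP np 1 (L + 1) ≤ 8
  bal : SH D (L + 1) = SL D (L + 1) + 3

theorem Nrm.count (h : Nrm V L P D np) (i : ℕ) : SH D i + SL D i + TC D np i = NP np 1 i := by
  unfold SH SL TC NP
  rw [← Finset.sum_add_distrib, ← Finset.sum_add_distrib]
  refine Finset.sum_congr rfl fun k _ => ?_
  by_cases hk : D (k : ℤ) = D ((k : ℤ) - 1)
  · have := h.h1 ((k : ℤ) - 1) (by rw [sub_add_cancel]; exact hk)
    rw [sub_add_cancel] at this
    rw [if_neg (fun hh : D (k : ℤ) ≠ D ((k : ℤ) - 1) ∧ np (k : ℤ) = true => hh.1 hk), if_pos this]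
    cases hp : par (D (k : ℤ)) with
    | true =>
      rw [if_neg (fun hh => Bool.noConfusion hh.2), if_pos ⟨hk, rfl⟩]
    | false =>
      rw [if_pos ⟨hk, rfl⟩, if_neg (fun hh => Bool.noConfusion hh.2)]
  · rw [if_neg (fun hh => hk hh.1), if_neg (fun hh => hk hh.1)]
    cases hn : np (k : ℤ) with
    | true => rw [if_pos ⟨hk, rfl⟩, if_pos rfl]
    | false => rw [if_neg (fun hh => Bool.noConfusion hh.2), if_neg Bool.noConfusion]

theorem Ico_succ' (f : ℕ → ℕ) {i : ℕ} (hi : 1 ≤ i) :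
    ∑ k ∈ Ico 1 (i + 1), f k = ∑ k ∈ Ico 1 i, f k + f i := Finset.sum_Ico_succ_top hi f

theorem sum_mono' (f : ℕ → ℕ) {i j : ℕ} (h : i ≤ j) : ∑ k ∈ Ico 1 i, f k ≤ ∑ k ∈ Ico 1 j, f k :=
  Finset.sum_le_sum_of_subset (Finset.Ico_subset_Ico_right h)

theorem NP_split (np : ℤ → Bool) {i j k : ℕ} (h1 : i ≤ j) (h2 : j ≤ k) :
    NP np i j + NP np j k = NP np i k := by
  unfold NP
  exact Finset.sum_Ico_consecutive _ h1 h2

/-- distance from the origin -/
theorem Nrm.far (h : Nrm V L P D np) : ∀ n j : ℕ, j + n + 1 = L →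
    ∃ (s : ZMod 6) (N : ℕ) (b : Pt), (s = 1 ∨ s = -1) ∧ 1 ≤ N ∧ -P j = arc (D j) s N + b ∧
      Bd b (2 * (NP np (j + 1) L : ℕ)) ∧ (2 ≤ N → np j = false → s = D j - D ((j : ℤ) - 1)) := by
  intro n
  induction n with
  | zero =>
    intro j hj
    refine ⟨1, 1, 0, Or.inl rfl, le_rfl, ?_, ?_, fun h2 => absurd h2 (by omega)⟩
    · have h1 := h.poly.step (j : ℤ)
      have h2 : P ((j : ℤ) + 1) = 0 := by
        have h3 := h.poly.per 0
        rw [h.P0, zero_add] at h3
        rw [← h3]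
        congr 1
        rw [← hj]
        push_cast
        ring
      rw [h2] at h1
      rw [add_zero, arc_succ]
      have h4 : arc (D j + 1) 1 0 = 0 := by simp [arc]
      rw [h4, add_zero]
      exact neg_eq_of_add_eq_zero_right h1.symm
    · unfold Bd
      simp
  | succ n ih =>
    intro j hj
    obtain ⟨s, N, b, hs, hN, hP, hb, hc⟩ := ih (j + 1) (by omega)
    have hstep : -P (j : ℤ) = e (D j) + -P ((j : ℤ) + 1) := by
      rw [h.poly.step (j : ℤ)]
      abel
    have hcast : ((j + 1 : ℕ) : ℤ) = (j : ℤ) + 1 := by push_cast; ring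
    rw [hcast] at hP hc
    have hsplit : NP np (j + 1) L = (if np ((j + 1 : ℕ) : ℤ) = true then 1 else 0) +
        NP np (j + 1 + 1) L := by
      rw [← NP_split np (show j + 1 ≤ j + 1 + 1 by omega) (show j + 1 + 1 ≤ L by omega)]
      congr 1
      unfold NP
      rw [Finset.sum_Ico_succ_top (le_refl _)]
      simp
    rw [hcast] at hsplit
    cases hnp : np ((j : ℤ) + 1) with
    | true =>
      refine ⟨1, 1, -P ((j : ℤ) + 1), Or.inl rfl, le_rfl, ?_, ?_, fun h2 => absurd h2 (by omega)⟩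
      · rw [hstep, arc_succ]
        have h4 : arc (D j + 1) 1 0 = 0 := by simp [arc]
        rw [h4, add_zero]
      · rw [hP]
        refine ((arc_bd s hs N _).add hb).mono ?_
        rw [hsplit, hnp]
        simp only [if_true]
        push_cast
        linarith
    | false =>
      -- the corner at `j + 1`
      have hne : D ((j : ℤ) + 1) ≠ D j := by
        intro heq
        rw [h.h1 _ heq] at hnp
        cases hnp
      have ht : D ((j : ℤ) + 1) = D j + 1 ∨ D ((j : ℤ) + 1) = D j + -1 := by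
        rcases h.poly.turn (j : ℤ) with h0 | h0 | h0
        · exact absurd h0 hne
        · exact Or.inl h0
        · exact Or.inr (by rw [h0]; ring)
      obtain ⟨t, ht1, ht2⟩ : ∃ t : ZMod 6, (t = 1 ∨ t = -1) ∧ D ((j : ℤ) + 1) = D j + t := by
        rcases ht with h0 | h0
        · exact ⟨1, Or.inl rfl, h0⟩
        · exact ⟨-1, Or.inr rfl, h0⟩
      have harc : arc (D ((j : ℤ) + 1)) s N = arc (D ((j : ℤ) + 1)) t N := by
        rcases Nat.lt_or_ge N 2 with h2 | h2
        · have : N = 1 := by omega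
          subst this
          simp [arc]
        · have := hc h2 hnp
          rw [add_sub_cancel_right, ht2, add_sub_cancel_left] at this
          rw [this]
      refine ⟨t, N + 1, b, ht1, by omega, ?_, ?_, ?_⟩
      · rw [hstep, hP, harc, arc_succ, ht2, add_assoc]
      · rw [hsplit, hnp]
        simpa using hb
      · intro _ hj'
        have h5 := h.h4 (j : ℤ) hj' hnp
        rw [ht2, add_sub_cancel_left] at h5
        exact h5

theorem Nrm.bound (h : Nrm V L P D np) {j : ℕ} (hj : 1 ≤ j) (hjL : j < L) :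
    Bd (P j) (18 - 2 * (NP np 1 j : ℕ)) := by
  obtain ⟨s, N, b, hs, hN, hP, hb, -⟩ := h.far (L - 1 - j) j (by omega)
  refine Bd.neg ?_
  rw [hP]
  refine ((arc_bd s hs N _).add hb).mono ?_
  have h1 := NP_split np hj (show j ≤ j + 1 by omega)
  have h2 := NP_split np (show 1 ≤ j + 1 by omega) (show j + 1 ≤ L by omega)
  have h3 := NP_split np (show 1 ≤ L by omega) (show L ≤ L + 1 by omega)
  have h4 := h.cnt
  omega

end Pool.Agent.H171R2.Tri.T5
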