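import Pool.Agent.H591R2.Tri.T5a

/-!
# Soundness of the search, second part
-/

namespace Pool.Agent.H171R2.Tri.T5

open Finset

/-! ### Elementary facts on the functions of the search -/

theorem mn_le_left (a b : ℕ) : mn a b ≤ a := by
  unfold mn
  cases h : Nat.ble a b
  · simp only [cond_false]
    have : ¬ a ≤ b := by rw [← Nat.ble_eq, h]; simp
    omega
  · simp

theorem mn_le_right (a b : ℕ) : mn a b ≤ b := by
  unfold mn
  cases h : Nat.ble a b
  · simp
  · simp only [cond_true]
    exact Nat.le_of_ble_eq_true h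

theorem mx_le {a b c : ℕ} (h1 : a ≤ c) (h2 : b ≤ c) : mx a b ≤ c := by
  unfold mx
  cases Nat.ble a b <;> simpa

theorem eqL_iff : ∀ l l' : List ℕ, eqL l l' = true → l = l'
  | [], [], _ => rfl
  | a :: l, b :: l', h => by
    simp only [eqL, Bool.and_eq_true, Nat.beq_eq] at h
    rw [h.1, eqL_iff l l' h.2]
  | [], _ :: _, h => by simp [eqL] at h
  | _ :: _, [], h => by simp [eqL] at h

theorem memL_iff (w : List ℕ) : ∀ ls : List (List ℕ), memL w ls = true → w ∈ ls
  | [], h => by simp [memL] at h
  | l :: ls, h => by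
    simp only [memL, Bool.or_eq_true] at h
    rcases h with h | h
    · rw [eqL_iff _ _ h]
      exact List.mem_cons_self
    · exact List.mem_cons_of_mem _ (memL_iff w ls h)

theorem ax_val : ∀ d : ZMod 6, ((ax d.val : ℕ) : ℤ) = (e d).1 + 1 := by decide
theorem ay_val : ∀ d : ZMod 6, ((ay d.val : ℕ) : ℤ) = (e d).2 + 1 := by decide
theorem val_add_one : ∀ d : ZMod 6, (d.val + 1) % 6 = (d + 1).val := by decide
theorem val_add_five : ∀ d : ZMod 6, (d.val + 5) % 6 = (d - 1).val := by decide
theorem e_bd : ∀ d : ZMod 6, Bd (e d) 1 := by decide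
theorem par_eq (d : ZMod 6) : par d = (d.val % 2 == 1) := rfl
theorem par_add_one : ∀ d : ZMod 6, par (d + 1) = !par d := by decide
theorem par_sub_one : ∀ d : ZMod 6, par (d - 1) = !par d := by decide

theorem bit_test (v q : ℕ) :
    Nat.beq (Nat.land (Nat.shiftRight v q) 1) 0 = !(v.testBit q) := by
  have h : v.testBit q = (1 &&& (v >>> q) != 0) := rfl
  have h2 : Nat.land (Nat.shiftRight v q) 1 = 1 &&& (v >>> q) := Nat.land_comm _ _
  rw [h, h2]
  cases h3 : Nat.beq (1 &&& (v >>> q)) 0 with
  | true =>
    have := Nat.eq_of_beq_eq_true h3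
    simp [this]
  | false =>
    have := Nat.ne_of_beq_eq_false h3
    simp only [Bool.false_eq, Bool.not_eq_false', bne_iff_ne, ne_eq]
    exact this

theorem bit_or (v a b c q : ℕ)
    (h : (Nat.lor v (Nat.lor (Nat.shiftLeft 1 a) (Nat.lor (Nat.shiftLeft 1 b)
      (Nat.shiftLeft 1 c)))).testBit q = true) :
    v.testBit q = true ∨ q = a ∨ q = b ∨ q = c := by
  have h1 : (Nat.lor v (Nat.lor (Nat.shiftLeft 1 a) (Nat.lor (Nat.shiftLeft 1 b)
      (Nat.shiftLeft 1 c)))) = v ||| ((1 <<< a) ||| ((1 <<< b) ||| (1 <<< c))) := rfl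
  rw [h1] at h
  simp only [Nat.testBit_or, Nat.one_shiftLeft, Nat.testBit_two_pow, Bool.or_eq_true,
    decide_eq_true_eq] at h
  rcases h with h | h | h | h
  · exact Or.inl h
  · exact Or.inr (Or.inl h.symm)
  · exact Or.inr (Or.inr (Or.inl h.symm))
  · exact Or.inr (Or.inr (Or.inr h.symm))

/-! ### The invariant -/

variable {V : Set Pt} {L : ℕ} {P : ℤ → Pt} {D : ℤ → ZMod 6} {np : ℤ → Bool}

/-- the turns at the vertices `1, ..., i-1`, latest first -/
def wd (D : ℤ → ZMod 6) (i : ℕ) : List ℕ := ((List.range (i - 1)).map fun j : ℕ => tc D ((j : ℤ) + 1)).reverse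

theorem wd_succ (D : ℤ → ZMod 6) {i : ℕ} (hi : 1 ≤ i) : wd D (i + 1) = tc D (i : ℤ) :: wd D i := by
  unfold wd
  obtain ⟨n, rfl⟩ : ∃ n, i = n + 1 := ⟨i - 1, by omega⟩
  rw [show n + 1 + 1 - 1 = n + 1 by omega, show n + 1 - 1 = n by omega, List.range_succ]
  simp

structure Inv (L : ℕ) (P : ℤ → Pt) (D : ℤ → ZMod 6) (np : ℤ → Bool) (i : ℕ)
    (X Y d vis sh sl tN tP lk m : ℕ) (w : List ℕ) : Prop where
  hi : 2 ≤ i
  hiL : i < L
  hX : (X : ℤ) = (P i).1 + 20
  hY : (Y : ℤ) = (P i).2 + 20
  hB : Bd (P i) 18
  hd : d = (D ((i : ℤ) - 1)).val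
  hvis : ∀ q, vis.testBit q = true → ∃ u : Pt, (q : ℤ) = 40 * (u.1 + 20) + (u.2 + 20) ∧
    |u.2| ≤ 19 ∧ ∀ j : ℕ, i < j → j < L → P j ≠ u
  hsh : sh = SH D i
  hsl : sl = SL D i
  hN : np ((i : ℤ) - 1) = true → tN ≤ TC D np i
  hP : np ((i : ℤ) - 1) = false → tP ≤ TC D np i ∧ (m = 1 → D i ≠ D ((i : ℤ) - 1)) ∧
    (m = 2 → D i = D ((i : ℤ) - 1))
  hlk : lk = tc D ((i : ℤ) - 1)
  hw : w = wd D i

/-- the conclusion -/
def Concl (L : ℕ) (D : ℤ → ZMod 6) : Prop := ((List.range L).map fun j : ℕ => tc D (j : ℤ)) ∈ leafs

/-- soundness for all states at vertex `i` -/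
def Sound (L : ℕ) (P : ℤ → Pt) (D : ℤ → ZMod 6) (np : ℤ → Bool) (g : G) : Prop :=
  ∀ i X Y d vis sh sl tN tP lk m w, Inv L P D np i X Y d vis sh sl tN tP lk m w →
    g X Y d vis sh sl tN tP lk m w = true → Concl L D

theorem tc_zero_iff (D : ℤ → ZMod 6) (k : ℤ) : tc D k = 0 ↔ D k = D (k - 1) := by
  unfold tc
  by_cases h : D k = D (k - 1)
  · simp [h]
  · by_cases h2 : D k = D (k - 1) + 1
    · rw [if_neg h, if_pos h2]
      simp [h]
    · rw [if_neg h, if_neg h2]
      simp [h]

theorem P_ne_of_lt (h : Nrm V L P D np) {j k : ℕ} (hj : j < L) (hk : k < L) (hjk : j ≠ k) :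
    P j ≠ P k := by
  intro he
  have h1 := h.poly.inj _ _ he
  obtain ⟨c, hc⟩ := h1
  have h2 : c = 0 := by
    by_contra hne
    rcases lt_or_gt_of_ne hne with h3 | h3
    · have : (L : ℤ) * c ≤ -(L : ℤ) := by nlinarith
      omega
    · have : (L : ℤ) ≤ (L : ℤ) * c := by nlinarith
      omega
  rw [h2, mul_zero] at hc
  omega

theorem P_L (h : Nrm V L P D np) : P (L : ℤ) = 0 := by
  have := h.poly.per 0
  rwa [zero_add, h.P0] at this

theorem D_L (h : Nrm V L P D np) : D (L : ℤ) = 0 := by
  have := h.poly.perd 0
  rwa [zero_add, h.D0] at this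

theorem D_L1 (h : Nrm V L P D np) : D ((L : ℤ) + 1) = 0 := by
  have := h.poly.perd 1
  rwa [add_comm, h.D1] at this

theorem D_Lm (h : Nrm V L P D np) : D ((L : ℤ) - 1) ≠ 0 := by
  have := h.poly.perd (-1)
  rw [show (-1 : ℤ) + L = (L : ℤ) - 1 by ring] at this
  rw [this]
  exact h.Dm

/-- closing -/
theorem fin_sound (h : Nrm V L P D np) {i : ℕ} (hi : 2 ≤ i) (hiL : i + 1 = L)
    {nd nsh nsl nN nP k nm : ℕ} {w : List ℕ} (hk : k = tc D (i : ℤ)) (hnd : nd = (D (i : ℤ)).val)
    (hsh : nsh = SH D (i + 1)) (hsl : nsl = SL D (i + 1))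
    (hN : np (i : ℤ) = true → nN ≤ TC D np (i + 1))
    (hP : np (i : ℤ) = false → nP ≤ TC D np (i + 1) ∧ (nm = 2 → D ((i : ℤ) + 1) = D i))
    (hw : w = wd D i) (hf : fin nd nsh nsl nN nP k nm w = true) : Concl L D := by
  have hc : ((i : ℕ) : ℤ) = (L : ℤ) - 1 := by omega
  have hDL := D_L h
  have hne : D (i : ℤ) ≠ 0 := by rw [hc]; exact D_Lm h
  have hturn : D (i : ℤ) = 1 ∨ D (i : ℤ) = -1 := by
    have h1 := h.poly.turn (i : ℤ)
    rw [show ((i : ℤ) + 1) = L by omega, hDL] at h1
    rcases h1 with h1 | h1 | h1
    · exact absurd h1.symm hne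
    · right
      exact eq_neg_of_add_eq_zero_left h1.symm
    · left
      exact (sub_eq_zero.1 h1.symm)
  have e1 : (Nat.beq nd 1 || Nat.beq nd 5) = true := by
    rw [hnd]
    rcases hturn with h1 | h1 <;> rw [h1] <;> decide
  have hcornerL : D (L : ℤ) ≠ D ((L : ℤ) - 1) := by
    rw [hDL]
    exact (D_Lm h).symm
  have e2 : SH D (L + 1) = SH D L := by
    unfold SH
    rw [Ico_succ' _ (by omega), if_neg (fun hh => hcornerL hh.1), add_zero]
  have e3 : SL D (L + 1) = SL D L := by
    unfold SL
    rw [Ico_succ' _ (by omega), if_neg (fun hh => hcornerL hh.1), add_zero]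
  have e4 : TC D np (L + 1) = TC D np L + if np (L : ℤ) = true then 1 else 0 := by
    unfold TC
    rw [Ico_succ' _ (by omega)]
    congr 1
    by_cases hn : np (L : ℤ) = true
    · rw [if_pos ⟨hcornerL, hn⟩, if_pos hn]
    · rw [if_neg (fun hh => hn hh.2), if_neg hn]
  rw [hiL] at hsh hsl hN hP
  have e5 : Nat.beq nsh (nsl + 3) = true := by
    rw [Nat.beq_eq, hsh, hsl]
    have := h.bal
    omega
  have hcount := h.count (L + 1)
  have hcnt := h.cnt
  have e6 : Nat.ble (nsh + nsl + cond (Nat.beq k 0) nN (mn nN (cond (Nat.beq nm 2) 99 nP) + 1)) 8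
      = true := by
    rw [Nat.ble_eq]
    have key : cond (Nat.beq k 0) nN (mn nN (cond (Nat.beq nm 2) 99 nP) + 1) ≤ TC D np (L + 1) := by
      by_cases hk0 : k = 0
      · -- straight
        rw [hk0]
        rw [show Nat.beq 0 0 = true from rfl]
        simp only [cond_true]
        have h1 : D (i : ℤ) = D ((i : ℤ) - 1) := (tc_zero_iff D _).1 (by rw [← hk]; exact hk0)
        have h2 : np (i : ℤ) = true := by
          have := h.h1 ((i : ℤ) - 1) (by rw [sub_add_cancel]; exact h1)
          rwa [sub_add_cancel] at this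
        have := hN h2
        omega
      · have hk1 : Nat.beq k 0 = false := by
          cases hb : Nat.beq k 0 with
          | false => rfl
          | true => exact absurd (Nat.eq_of_beq_eq_true hb) hk0
        rw [hk1]
        simp only [cond_false]
        -- the corner at `L` does not pay
        have hnpL : np (L : ℤ) = true := by
          by_contra hcon
          have h1 : D (i : ℤ) ≠ D ((i : ℤ) - 1) := fun hh => hk0 (by rw [hk]; exact (tc_zero_iff D _).2 hh)
          have h2 := h.h2 (i : ℤ) (by
            rw [show ((i : ℤ) + 1) = L by omega, hDL]; exact hne.symm) (by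
            rcases hturn with h3 | h3 <;> rw [h3] <;> decide) h1.symm (by
            rw [show ((i : ℤ) + 2) = (L : ℤ) + 1 by omega, show ((i : ℤ) + 1) = L by omega,
              D_L1 h, hDL])
          rw [show ((i : ℤ) + 1) = L by omega] at h2
          exact hcon h2
        rw [e4, if_pos hnpL]
        refine Nat.add_le_add_right ?_ 1
        cases hni : np (i : ℤ) with
        | true => exact (mn_le_left _ _).trans (hN hni)
        | false =>
          obtain ⟨h3, h4⟩ := hP hni
          have h5 : nm ≠ 2 := by
            intro h6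
            have := h4 h6
            rw [show ((i : ℤ) + 1) = L by omega, hDL] at this
            exact hne this.symm
          have h6 : Nat.beq nm 2 = false := by
            cases hb : Nat.beq nm 2 with
            | false => rfl
            | true => exact absurd (Nat.eq_of_beq_eq_true hb) h5
          rw [h6]
          simp only [cond_false]
          exact (mn_le_right _ _).trans h3
    omega
  unfold fin at hf
  rw [e1, e5, e6] at hf
  simp only [cond_true] at hf
  have hmem := memL_iff _ _ hf
  have e7 : (cond (Nat.beq nd 1) 2 1 :: (k :: w).reverse) =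
      (List.range L).map fun j : ℕ => tc D (j : ℤ) := by
    have h1 : (k :: w) = wd D (i + 1) := by
      rw [wd_succ D (by omega), hk, hw]
    rw [h1, ← hiL, List.range_succ_eq_map, List.map_cons, List.map_map]
    congr 1
    · -- the turn at the origin
      have h2 : tc D ((0 : ℕ) : ℤ) = tc D (L : ℤ) := by
        unfold tc
        have h3 : D ((0 : ℕ) : ℤ) = D (L : ℤ) := by
          rw [hDL]
          exact h.D0
        have h4 : D (((0 : ℕ) : ℤ) - 1) = D ((L : ℤ) - 1) := by
          have h5 := h.poly.perd (-1)
          rw [show (-1 : ℤ) + L = (L : ℤ) - 1 by ring] at h5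
          rw [show (((0 : ℕ) : ℤ) - 1) = -1 by simp, h5]
        rw [h3, h4]
      rw [h2]
      unfold tc
      rw [hDL, ← hc]
      rcases hturn with h3 | h3 <;> rw [hnd, h3] <;> decide
    · unfold wd
      rw [List.reverse_reverse, Nat.add_sub_cancel]
      refine List.map_congr_left fun j _ => ?_
      simp
  rw [e7] at hmem
  exact hmem

/-- the new state after the decision at the vertex `i` -/
theorem pre_sound (h : Nrm V L P D np) {g : G} (hg : Sound L P D np g) {i : ℕ}
    {X Y d vis sh sl tN tP lk m : ℕ} {w : List ℕ}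
    (hI : Inv L P D np i X Y d vis sh sl tN tP lk m w)
    {nd nsh nsl nN nP k nm : ℕ} (hk : k = tc D (i : ℤ)) (hnd : nd = (D (i : ℤ)).val)
    (hsh : nsh = SH D (i + 1)) (hsl : nsl = SL D (i + 1))
    (hN : np (i : ℤ) = true → nN ≤ TC D np (i + 1))
    (hP : np (i : ℤ) = false → nP ≤ TC D np (i + 1) ∧ (nm = 1 → D ((i : ℤ) + 1) ≠ D i) ∧
      (nm = 2 → D ((i : ℤ) + 1) = D i))
    (hf : pre g X Y nd vis nsh nsl nN nP k nm w = true) : Concl L D := by
  have hi := hI.hi
  have hiL := hI.hiL
  have hm : mn nN nP ≤ TC D np (i + 1) := by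
    cases hni : np (i : ℤ) with
    | true => exact (mn_le_left _ _).trans (hN hni)
    | false => exact (mn_le_right _ _).trans (hP hni).1
  have hcL := h.count (L + 1)
  have hci := h.count (i + 1)
  have hcnt := h.cnt
  have hbal := h.bal
  have m1 : SH D (i + 1) ≤ SH D (L + 1) := sum_mono' _ (by omega)
  have m2 : SL D (i + 1) ≤ SL D (L + 1) := sum_mono' _ (by omega)
  have m3 : TC D np (i + 1) ≤ TC D np (L + 1) := sum_mono' _ (by omega)
  have c1 : Nat.ble (2 * mx nsl (nsh - 3) + 3 + mn nN nP) 8 = true := by
    rw [Nat.ble_eq]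
    have : mx nsl (nsh - 3) ≤ SL D (L + 1) := mx_le (by omega) (by omega)
    omega
  unfold pre at hf
  rw [c1] at hf
  simp only [cond_true] at hf
  -- the new point
  have hstep := h.poly.step (i : ℤ)
  have hx1 : ((X + ax nd : ℕ) : ℤ) = (P ((i : ℤ) + 1)).1 + 21 := by
    push_cast
    rw [hnd, ax_val, hI.hX, hstep]
    simp only [Prod.fst_add]
    ring
  have hy1 : ((Y + ay nd : ℕ) : ℤ) = (P ((i : ℤ) + 1)).2 + 21 := by
    push_cast
    rw [hnd, ay_val, hI.hY, hstep]
    simp only [Prod.snd_add]
    ring
  have hbd : Bd (P ((i : ℤ) + 1)) ((18 - 2 * (nsh + nsl + mn nN nP) : ℕ) : ℤ) := by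
    by_cases hL : i + 1 = L
    · rw [show ((i : ℤ) + 1) = L by omega, P_L h]
      unfold Bd
      simp
    · have h1 := h.bound (j := i + 1) (by omega) (by omega)
      rw [show (((i + 1 : ℕ)) : ℤ) = (i : ℤ) + 1 by push_cast; ring] at h1
      refine h1.mono ?_
      omega
  generalize hr : (18 - 2 * (nsh + nsl + mn nN nP) : ℕ) = r at hf hbd
  have hr18 : r ≤ 18 := by omega
  generalize hx : X + ax nd = x1 at hf hx1
  generalize hy : Y + ay nd = y1 at hf hy1
  have hbd' := hbd
  unfold Bd at hbd'
  simp only [abs_le] at hbd'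
  unfold cont at hf
  have c2 : (Nat.ble x1 (21 + r) && Nat.ble 21 (x1 + r) && Nat.ble y1 (21 + r) &&
      Nat.ble 21 (y1 + r) && Nat.ble (x1 + y1) (42 + r) && Nat.ble 42 (x1 + y1 + r)) = true := by
    simp only [Bool.and_eq_true, Nat.ble_eq]
    omega
  rw [c2] at hf
  simp only [cond_true] at hf
  by_cases hL : i + 1 = L
  · -- closed
    have h0 : P ((i : ℤ) + 1) = 0 := by
      rw [show ((i : ℤ) + 1) = L by omega, P_L h]
    rw [h0] at hx1 hy1
    have hx2 : x1 = 21 := by
      simp only [Prod.fst_zero] at hx1
      omega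
    have hy2 : y1 = 21 := by
      simp only [Prod.snd_zero] at hy1
      omega
    rw [hx2, hy2] at hf
    rw [show Nat.beq 21 21 = true from rfl] at hf
    simp only [Bool.and_self, cond_true] at hf
    exact fin_sound h hi hL hk hnd hsh hsl hN (fun hn => ⟨(hP hn).1, (hP hn).2.2⟩) hI.hw hf
  · have hiL' : i + 1 < L := by omega
    have h0 : ¬ (x1 = 21 ∧ y1 = 21) := by
      rintro ⟨a, b⟩
      have h1 : P ((i + 1 : ℕ) : ℤ) = P ((0 : ℕ) : ℤ) := by
        rw [show (((i + 1 : ℕ)) : ℤ) = (i : ℤ) + 1 by push_cast; ring,
          show (((0 : ℕ)) : ℤ) = 0 by simp, h.P0]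
        refine Prod.ext ?_ ?_
        · simp only [Prod.fst_zero]; omega
        · simp only [Prod.snd_zero]; omega
      exact P_ne_of_lt h hiL' (by omega) (by omega) h1
    have c3 : (Nat.beq x1 21 && Nat.beq y1 21) = false := by
      cases hb : (Nat.beq x1 21 && Nat.beq y1 21) with
      | false => rfl
      | true =>
        rw [Bool.and_eq_true, Nat.beq_eq, Nat.beq_eq] at hb
        exact absurd hb h0
    rw [c3] at hf
    simp only [cond_false] at hf
    rw [bit_test] at hf
    have hq : ((40 * (x1 - 1) + (y1 - 1) : ℕ) : ℤ) =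
        40 * ((P ((i : ℤ) + 1)).1 + 20) + ((P ((i : ℤ) + 1)).2 + 20) := by
      omega
    have hx2 : ((x1 - 1 : ℕ) : ℤ) = (P ((i : ℤ) + 1)).1 + 20 := by omega
    have hy2 : ((y1 - 1 : ℕ) : ℤ) = (P ((i : ℤ) + 1)).2 + 20 := by omega
    have hci1 : (((i + 1 : ℕ)) : ℤ) = (i : ℤ) + 1 := by push_cast; ring
    have c4 : vis.testBit (40 * (x1 - 1) + (y1 - 1)) = false := by
      cases hb : vis.testBit (40 * (x1 - 1) + (y1 - 1)) with
      | false => rfl
      | true =>
        obtain ⟨u, hu1, hu2, hu3⟩ := hI.hvis _ hb
        exfalso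
        refine hu3 (i + 1) (by omega) hiL' ?_
        rw [hci1]
        rw [hq] at hu1
        rw [abs_le] at hu2
        refine Prod.ext ?_ ?_ <;> omega
    rw [c4] at hf
    simp only [Bool.not_false, cond_true] at hf
    -- the new state
    refine hg (i + 1) _ _ _ _ _ _ _ _ _ _ _ ?_ hf
    have hci2 : (((i + 1 : ℕ)) : ℤ) - 1 = (i : ℤ) := by push_cast; ring
    have hVi : P (i : ℤ) ∈ V := h.poly.mem _
    have hVi1 : P (i : ℤ) + e (D i) ∈ V := by rw [← hstep]; exact h.poly.mem _
    have hA : P (i : ℤ) + e (D i + 1) ∉ V := h.tri _ hVi _ hVi1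
    have hBB : P (i : ℤ) + e (D i - 1) ∉ V := by
      intro hcon
      have := h.tri _ hVi _ hcon
      rw [sub_add_cancel] at this
      exact this hVi1
    refine ⟨by omega, hiL', ?_, ?_, ?_, ?_, ?_, hsh, hsl, ?_, ?_, ?_, ?_⟩
    · rw [hci1]; exact hx2
    · rw [hci1]; exact hy2
    · rw [hci1]
      exact hbd.mono (by omega)
    · rw [hci2]; exact hnd
    · intro q hqb
      have hBi := hI.hB
      unfold Bd at hBi
      simp only [abs_le] at hBi
      rcases bit_or _ _ _ _ _ hqb with h1 | h1 | h1 | h1
      · obtain ⟨u, hu1, hu2, hu3⟩ := hI.hvis _ h1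
        exact ⟨u, hu1, hu2, fun j hj hj' => hu3 j (by omega) hj'⟩
      · refine ⟨P ((i : ℤ) + 1), ?_, ?_, ?_⟩
        · rw [h1]; exact hq
        · rw [abs_le]; omega
        · intro j hj hj'
          rw [← hci1]
          exact P_ne_of_lt h hj' hiL' (by omega)
      · refine ⟨P (i : ℤ) + e (D i + 1), ?_, ?_, ?_⟩
        · have a1 : (((nd + 1) % 6 : ℕ)) = (D (i : ℤ) + 1).val := by rw [hnd, val_add_one]
          have a2 := ax_val (D (i : ℤ) + 1)
          have a3 := ay_val (D (i : ℤ) + 1)
          have a4 := e_bd (D (i : ℤ) + 1)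
          have a5 := hI.hX
          have a6 := hI.hY
          unfold Bd at a4
          simp only [abs_le] at a4
          rw [h1, a1]
          simp only [Prod.fst_add, Prod.snd_add]
          omega
        · have a4 := e_bd (D (i : ℤ) + 1)
          unfold Bd at a4
          simp only [abs_le] at a4
          simp only [Prod.snd_add]
          rw [abs_le]
          omega
        · intro j _ _ he
          exact hA (he ▸ h.poly.mem _)
      · refine ⟨P (i : ℤ) + e (D i - 1), ?_, ?_, ?_⟩
        · have a1 : (((nd + 5) % 6 : ℕ)) = (D (i : ℤ) - 1).val := by rw [hnd, val_add_five]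
          have a2 := ax_val (D (i : ℤ) - 1)
          have a3 := ay_val (D (i : ℤ) - 1)
          have a4 := e_bd (D (i : ℤ) - 1)
          have a5 := hI.hX
          have a6 := hI.hY
          unfold Bd at a4
          simp only [abs_le] at a4
          rw [h1, a1]
          simp only [Prod.fst_add, Prod.snd_add]
          omega
        · have a4 := e_bd (D (i : ℤ) - 1)
          unfold Bd at a4
          simp only [abs_le] at a4
          simp only [Prod.snd_add]
          rw [abs_le]
          omega
        · intro j _ _ he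
          exact hBB (he ▸ h.poly.mem _)
    · rw [hci2]; exact hN
    · rw [hci2, hci1]; exact hP
    · rw [hci2]; exact hk
    · rw [wd_succ D (by omega), hk, hI.hw]

theorem go_sound (h : Nrm V L P D np) : ∀ n, Sound L P D np (go n) := by
  intro n
  induction n with
  | zero =>
    intro i X Y d vis sh sl tN tP lk m w _ hf
    exact absurd hf (by simp [go])
  | succ n ih =>
    intro i X Y d vis sh sl tN tP lk m w hI hf
    have hf' : body (go n) X Y d vis sh sl tN tP lk m w = true := hf
    unfold body at hf'
    simp only [Bool.and_eq_true] at hf'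
    obtain ⟨⟨f0, f1⟩, f2⟩ := hf'
    have hi := hI.hi
    -- the bound for the number of non-paying corners before `i`
    have hs1 : SH D (i + 1) = SH D i + if D (i : ℤ) = D ((i : ℤ) - 1) ∧ par (D (i : ℤ)) = false
        then 1 else 0 := by unfold SH; exact Ico_succ' _ (by omega)
    have hs2 : SL D (i + 1) = SL D i + if D (i : ℤ) = D ((i : ℤ) - 1) ∧ par (D (i : ℤ)) = true
        then 1 else 0 := by unfold SL; exact Ico_succ' _ (by omega)
    have hs3 : TC D np (i + 1) = TC D np i + if D (i : ℤ) ≠ D ((i : ℤ) - 1) ∧ np (i : ℤ) = true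
        then 1 else 0 := by unfold TC; exact Ico_succ' _ (by omega)
    by_cases h0 : D (i : ℤ) = D ((i : ℤ) - 1)
    · -- straight
      have hk : tc D (i : ℤ) = 0 := (tc_zero_iff D _).2 h0
      have hnp : np (i : ℤ) = true := by
        have := h.h1 ((i : ℤ) - 1) (by rw [sub_add_cancel]; exact h0)
        rwa [sub_add_cancel] at this
      rw [if_neg (fun hh => hh.1 h0), add_zero] at hs3
      unfold try0 at f0
      refine pre_sound h ih hI hk.symm ?_ ?_ ?_ ?_ ?_ f0
      · rw [h0]; exact hI.hd
      · rw [hs1, hI.hsh, hI.hd, ← h0]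
        congr 1
        cases hp : par (D (i : ℤ)) with
        | true =>
          rw [if_neg (fun hh => Bool.noConfusion hh.2)]
          rw [par_eq, beq_iff_eq] at hp
          omega
        | false =>
          rw [if_pos ⟨rfl, rfl⟩]
          rw [par_eq, beq_eq_false_iff_ne] at hp
          omega
      · rw [hs2, hI.hsl, hI.hd, ← h0]
        congr 1
        cases hp : par (D (i : ℤ)) with
        | true =>
          rw [if_pos ⟨rfl, rfl⟩]
          rw [par_eq, beq_iff_eq] at hp
          omega
        | false =>
          rw [if_neg (fun hh => Bool.noConfusion hh.2)]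
          rw [par_eq, beq_eq_false_iff_ne] at hp
          omega
      · intro _
        rw [hs3]
        cases hq : np ((i : ℤ) - 1) with
        | true => exact (mn_le_left _ _).trans (hI.hN hq)
        | false =>
          obtain ⟨b1, b2, b3⟩ := hI.hP hq
          have hm : Nat.beq m 1 = false := by
            cases hb : Nat.beq m 1 with
            | false => rfl
            | true => exact absurd h0 (b2 (Nat.eq_of_beq_eq_true hb))
          rw [hm]
          exact (mn_le_right _ _).trans b1
      · intro hh
        rw [hnp] at hh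
        cases hh
    · -- corner
      rw [if_neg (fun hh => h0 hh.1), add_zero] at hs1 hs2
      have main : ∀ s : ℕ, s = tc D (i : ℤ) →
          (D ((i : ℤ) - 1)).val + (cond (Nat.beq s 1) 1 5) = (D ((i : ℤ) - 1)).val +
            (cond (Nat.beq s 1) 1 5) →
          ((D ((i : ℤ) - 1)).val + (cond (Nat.beq s 1) 1 5)) % 6 = (D (i : ℤ)).val →
          tryc (go n) s X Y d vis sh sl tN tP lk m w = true → Concl L D := by
        intro s hs _ hdir hf
        unfold tryc at hf
        rw [hI.hd] at hf
        refine pre_sound h ih hI hs hdir.symm.symm ?_ ?_ ?_ ?_ hf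
        · rw [hs1, hI.hsh]
        · rw [hs2, hI.hsl]
        · intro hnp
          rw [hs3, if_pos ⟨h0, hnp⟩]
          refine Nat.add_le_add_right ?_ 1
          cases hq : np ((i : ℤ) - 1) with
          | true => exact (mn_le_left _ _).trans (hI.hN hq)
          | false =>
            obtain ⟨b1, b2, b3⟩ := hI.hP hq
            have hm : Nat.beq m 2 = false := by
              cases hb : Nat.beq m 2 with
              | false => rfl
              | true => exact absurd (b3 (Nat.eq_of_beq_eq_true hb)) h0
            rw [hm]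
            exact (mn_le_right _ _).trans b1
        · intro hnp
          have hs3' : TC D np (i + 1) = TC D np i := by
            rw [hs3, if_neg (fun hh => by rw [hnp] at hh; exact Bool.noConfusion hh.2), add_zero]
          refine ⟨?_, ?_, ?_⟩
          · rw [hs3']
            cases hq : np ((i : ℤ) - 1) with
            | true => exact (mn_le_left _ _).trans (hI.hN hq)
            | false =>
              obtain ⟨b1, b2, b3⟩ := hI.hP hq
              have hm : Nat.beq m 2 = false := by
                cases hb : Nat.beq m 2 with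
                | false => rfl
                | true => exact absurd (b3 (Nat.eq_of_beq_eq_true hb)) h0
              rw [hm]
              have h5 := h.h4 ((i : ℤ) - 1) hq (by rw [sub_add_cancel]; exact hnp)
              rw [sub_add_cancel] at h5
              have h6 : tc D ((i : ℤ) - 1) = tc D (i : ℤ) := by
                unfold tc
                have h7 : D ((i : ℤ) - 1) ≠ D ((i : ℤ) - 1 - 1) := by
                  intro hh
                  rw [hh, sub_self, sub_eq_zero] at h5
                  exact h0 (h5.trans hh.symm)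
                rw [if_neg h7, if_neg h0]
                by_cases h8 : D (i : ℤ) = D ((i : ℤ) - 1) + 1
                · rw [if_pos h8]
                  have h9 : D ((i : ℤ) - 1) = D ((i : ℤ) - 1 - 1) + 1 := by
                    rw [h8, add_sub_cancel_left] at h5
                    rw [eq_comm, sub_eq_iff_eq_add'] at h5
                    exact h5
                  rw [if_pos h9]
                · rw [if_neg h8]
                  have h9 : D ((i : ℤ) - 1) ≠ D ((i : ℤ) - 1 - 1) + 1 := by
                    intro hh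
                    apply h8
                    rw [hh, add_sub_cancel_left, sub_eq_iff_eq_add'] at h5
                    rw [h5, hh]
                  rw [if_neg h9]
              have h7 : Nat.beq s lk = true := by
                rw [Nat.beq_eq, hs, hI.hlk, h6]
              rw [h7]
              exact (mn_le_right _ _).trans b1
          · intro hm1
            have hpd : par (D ((i : ℤ) - 1)) = true := by
              rw [par_eq, beq_iff_eq]
              by_contra hcon
              have : Nat.beq ((D ((i : ℤ) - 1)).val % 2) 1 = false := by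
                cases hb : Nat.beq ((D ((i : ℤ) - 1)).val % 2) 1 with
                | false => rfl
                | true => exact absurd (Nat.eq_of_beq_eq_true hb) hcon
              rw [this] at hm1
              revert hm1
              cases Nat.beq lk 0 <;> simp
            have hlk0 : lk ≠ 0 := by
              intro hlk0
              rw [hlk0] at hm1
              revert hm1
              cases Nat.beq ((D ((i : ℤ) - 1)).val % 2) 1 <;> simp
            intro hcon
            have h7 := h.h2 ((i : ℤ) - 1) (by rw [sub_add_cancel]; exact h0) hpd (by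
              intro hh
              exact hlk0 (by rw [hI.hlk]; exact (tc_zero_iff D _).2 hh.symm)) (by
              rw [show (i : ℤ) - 1 + 2 = (i : ℤ) + 1 by ring, sub_add_cancel]; exact hcon)
            rw [sub_add_cancel, hnp] at h7
            cases h7
          · intro hm2
            have hpd : par (D ((i : ℤ) - 1)) = false := by
              rw [par_eq, beq_eq_false_iff_ne]
              intro hcon
              have : Nat.beq ((D ((i : ℤ) - 1)).val % 2) 1 = true := by
                rw [Nat.beq_eq]; exact hcon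
              rw [this] at hm2
              revert hm2
              cases Nat.beq lk 0 <;> simp
            have hlk0 : lk = 0 := by
              by_contra hlk0
              have : Nat.beq lk 0 = false := by
                cases hb : Nat.beq lk 0 with
                | false => rfl
                | true => exact absurd (Nat.eq_of_beq_eq_true hb) hlk0
              rw [this] at hm2
              revert hm2
              cases Nat.beq ((D ((i : ℤ) - 1)).val % 2) 1 <;> simp
            by_contra hcon
            have h7 := h.h3 ((i : ℤ) - 1) (by rw [sub_add_cancel]; exact h0) hpd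
              ((tc_zero_iff D _).1 (by rw [← hI.hlk]; exact hlk0)).symm (by
              rw [show (i : ℤ) - 1 + 2 = (i : ℤ) + 1 by ring, sub_add_cancel]; exact hcon)
            rw [sub_add_cancel, hnp] at h7
            cases h7
      have ht := h.poly.turn ((i : ℤ) - 1)
      rw [sub_add_cancel] at ht
      rcases ht with ht | ht | ht
      · exact absurd ht h0
      · refine main 1 ?_ rfl ?_ f1
        · unfold tc
          rw [if_neg h0, if_pos ht]
        · rw [ht]
          exact val_add_one _
      · refine main 2 ?_ rfl ?_ f2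
        · unfold tc
          rw [if_neg h0, if_neg]
          rw [ht]
          generalize D ((i : ℤ) - 1) = a
          revert a
          decide
        · rw [ht]
          exact val_add_five _

end Pool.Agent.H171R2.Tri.T5
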