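import Pool.Agent.H591R2.Tri.T5b

/-!
# Polygons with at most 8 non-paying vertices: the theorem
-/

namespace Pool.Agent.H171R2.Tri

open Finset

/-- the 22 words whose closed walk has no lattice triangle among its points -/
def words22 : List (List ℕ) :=
  [[0,0,0,1,1,1,2,1,1,2,1,1,1], [0,0,0,1,1,1,2,1,1,2,1,2,1,1,1,1,2],
   [0,0,0,1,1,1,2,1,2,1,1,1,2,1,1], [0,0,0,1,1,2,1,1,1,2,1,2,1,1,1],
   [0,0,0,1,2,2,2,2,1,2,1,2,2,1,2,2,2], [0,0,0,2,1,1,1,1,2,1,2,1,1,2,1,1,1],
   [0,0,0,2,2,1,2,2,2,1,2,1,2,2,2], [0,0,0,2,2,2,1,2,1,2,2,2,1,2,2],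
   [0,0,0,2,2,2,1,2,2,1,2,1,2,2,2,2,1], [0,0,0,2,2,2,1,2,2,1,2,2,2],
   [0,0,1,1,0,1,1,2,1,1,1], [0,0,1,1,1,2,0,1,1,1,2,1,1], [0,0,1,1,1,2,1,1,0,1,1],
   [0,0,1,1,1,2,1,1,0,2,1,1,1,1,2], [0,0,1,1,2,1,1,1,0,2,1,1,1],
   [0,0,1,2,2,2,2,1,0,2,2,1,2,2,2], [0,0,2,1,1,1,1,2,0,1,1,2,1,1,1],
   [0,0,2,2,0,2,2,1,2,2,2], [0,0,2,2,1,2,2,2,0,1,2,2,2], [0,0,2,2,2,1,0,2,2,2,1,2,2],
   [0,0,2,2,2,1,2,2,0,1,2,2,2,2,1], [0,0,2,2,2,1,2,2,0,2,2]]

theorem words22_subset : ∀ W ∈ words22, W ∈ words := by decide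

/-- T5 for triangle-free sets: polygons with at most 8 non-paying vertices. -/
def Stmt_T5' : Prop :=
  ∀ (V : Set Pt) (L : ℕ) (p : ℤ → Pt) (d : ℤ → ZMod 6) (lp : Bool) (np : ℤ → Bool),
    TriFree V → IsPoly V L p d → Minority L d lp → (∀ k, np (k + L) = np k) →
    (∀ k, d (k + 1) = d k → np (k + 1) = true) →
    (∀ k, d (k + 1) ≠ d k → par (d k) = lp → d (k - 1) ≠ d k → d (k + 2) = d (k + 1) →
      np (k + 1) = true) →
    (∀ k, d (k + 1) ≠ d k → par (d k) ≠ lp → d (k - 1) = d k → d (k + 2) ≠ d (k + 1) →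
      np (k + 1) = true) →
    (∀ k, np k = false → np (k + 1) = false → d (k + 1) - d k = d k - d (k - 1)) →
    ((range L).filter (fun k : ℕ => np (k : ℤ) = true)).card ≤ 8 →
    ∃ a : ℤ, par (d a) ≠ lp ∧ ∃ W ∈ words22, W.length = L ∧
      ∀ j : ℕ, j < L → W.getD j 0 = tc d (a + j)

namespace T5

variable {V : Set Pt} {L : ℕ} {P : ℤ → Pt} {D : ℤ → ZMod 6} {np : ℤ → Bool}

theorem leaf_ok : ∀ l ∈ leafs, ∃ r, r < l.length ∧
    (List.range r).countP (fun j => decide (l.getD (j + 1) 0 ≠ 0)) % 2 = 0 ∧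
    ∃ W ∈ words22, W.length = l.length ∧
      ∀ j < l.length, W.getD j 0 = l.getD ((r + j) % l.length) 0 := by
  decide +kernel

theorem vis0_eq : vis0 = (1 <<< 860) ||| ((1 <<< 900) ||| ((1 <<< 821) ||| ((1 <<< 859) |||
    ((1 <<< 861) ||| (1 <<< 899))))) := by
  decide +kernel

theorem e_ne : ∀ k : ZMod 6, e k ≠ 0 := by decide

theorem two_lt (h : Nrm V L P D np) : 2 < L := by
  have ho := h.poly.odd
  have h1 : L ≠ 1 := by
    intro hL
    have h2 := h.poly.step 0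
    have h3 := h.poly.per 0
    rw [hL, h.P0] at h3
    rw [h.P0] at h2
    have h4 : P (0 + 1) = 0 := by simpa using h3
    rw [h4, zero_add] at h2
    exact e_ne _ h2.symm
  obtain ⟨c, hc⟩ := ho
  omega

theorem inv_two (h : Nrm V L P D np) : Inv L P D np 2 22 20 0 vis0 1 0 0 99 0 0 [0] := by
  have hP1 : P 1 = (1, 0) := by
    have := h.poly.step 0
    rw [h.P0, h.D0, zero_add, zero_add] at this
    rw [this]
    decide
  have hP2 : P 2 = (2, 0) := by
    have := h.poly.step 1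
    rw [h.D1, hP1] at this
    rw [show (2 : ℤ) = 1 + 1 by norm_num, this]
    decide
  have hV0 : (0 : Pt) ∈ V := by rw [← h.P0]; exact h.poly.mem _
  have hV1 : ((1, 0) : Pt) ∈ V := by rw [← hP1]; exact h.poly.mem _
  have hV2 : ((2, 0) : Pt) ∈ V := by rw [← hP2]; exact h.poly.mem _
  have n1 : ((0, 1) : Pt) ∉ V := by
    have := h.tri 0 hV0 0 (by rw [show (0 : Pt) + e 0 = (1, 0) by decide]; exact hV1)
    rwa [show (0 : Pt) + e (0 + 1) = (0, 1) by decide] at this
  have n2 : ((1, -1) : Pt) ∉ V := by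
    intro hcon
    have := h.tri 0 hV0 5 (by rw [show (0 : Pt) + e 5 = (1, -1) by decide]; exact hcon)
    rw [show (0 : Pt) + e (5 + 1) = (1, 0) by decide] at this
    exact this hV1
  have n3 : ((1, 1) : Pt) ∉ V := by
    have := h.tri (1, 0) hV1 0 (by rw [show ((1, 0) : Pt) + e 0 = (2, 0) by decide]; exact hV2)
    rwa [show ((1, 0) : Pt) + e (0 + 1) = (1, 1) by decide] at this
  have n4 : ((2, -1) : Pt) ∉ V := by
    intro hcon
    have := h.tri (1, 0) hV1 5 (by rw [show ((1, 0) : Pt) + e 5 = (2, -1) by decide]; exact hcon)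
    rw [show ((1, 0) : Pt) + e (5 + 1) = (2, 0) by decide] at this
    exact this hV2
  have h2L := two_lt h
  have hnp1 : np 1 = true := by
    have := h.h1 0 (by rw [zero_add, h.D1, h.D0])
    rwa [zero_add] at this
  have c2 : (((2 : ℕ)) : ℤ) = 2 := rfl
  refine ⟨le_rfl, h2L, ?_, ?_, ?_, ?_, ?_, ?_, ?_, ?_, ?_, ?_, ?_⟩
  · rw [c2, hP2]; norm_num
  · rw [c2, hP2]; norm_num
  · rw [c2, hP2]; decide
  · rw [show (((2 : ℕ)) : ℤ) - 1 = 1 by norm_num, h.D1]; rfl
  · intro q hq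
    rw [vis0_eq] at hq
    simp only [Nat.testBit_or, Nat.one_shiftLeft, Nat.testBit_two_pow, Bool.or_eq_true,
      decide_eq_true_eq] at hq
    rcases hq with hq | hq | hq | hq | hq | hq
    · refine ⟨(1, 0), by rw [← hq]; norm_num, by norm_num, fun j hj hjL => ?_⟩
      rw [← hP1]
      exact P_ne_of_lt (k := 1) h hjL (by omega) (by omega)
    · refine ⟨(2, 0), by rw [← hq]; norm_num, by norm_num, fun j hj hjL => ?_⟩
      rw [← hP2]
      exact P_ne_of_lt (k := 2) h hjL (by omega) (by omega)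
    · exact ⟨(0, 1), by rw [← hq]; norm_num, by norm_num, fun j _ _ he => n1 (he ▸ h.poly.mem _)⟩
    · exact ⟨(1, -1), by rw [← hq]; norm_num, by norm_num, fun j _ _ he => n2 (he ▸ h.poly.mem _)⟩
    · exact ⟨(1, 1), by rw [← hq]; norm_num, by norm_num, fun j _ _ he => n3 (he ▸ h.poly.mem _)⟩
    · exact ⟨(2, -1), by rw [← hq]; norm_num, by norm_num, fun j _ _ he => n4 (he ▸ h.poly.mem _)⟩
  · unfold SH
    rw [show Ico 1 2 = {1} from rfl, Finset.sum_singleton, if_pos]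
    rw [show ((1 : ℕ) : ℤ) - 1 = 0 by norm_num, show ((1 : ℕ) : ℤ) = 1 by norm_num, h.D0, h.D1]
    exact ⟨rfl, rfl⟩
  · unfold SL
    rw [show Ico 1 2 = {1} from rfl, Finset.sum_singleton, if_neg]
    rw [show ((1 : ℕ) : ℤ) = 1 by norm_num, h.D1]
    intro hh
    exact absurd hh.2 (by decide)
  · intro _
    exact Nat.zero_le _
  · intro hh
    rw [show (((2 : ℕ)) : ℤ) - 1 = 1 by norm_num, hnp1] at hh
    cases hh
  · rw [show (((2 : ℕ)) : ℤ) - 1 = 1 by norm_num]
    exact ((tc_zero_iff D 1).2 (by rw [show (1 : ℤ) - 1 = 0 by norm_num, h.D0, h.D1])).symm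
  · unfold wd
    have h3 : tc D 1 = 0 :=
      (tc_zero_iff D 1).2 (by rw [show (1 : ℤ) - 1 = 0 by norm_num, h.D0, h.D1])
    simp [h3]

theorem tc_per (hd : ∀ k, D (k + L) = D k) (k : ℤ) : tc D (k + L) = tc D k := by
  unfold tc
  rw [hd, show k + L - 1 = (k - 1) + L by ring, hd]

theorem par_count (h : Nrm V L P D np) (r : ℕ) :
    par (D (r : ℤ)) =
      ((List.range r).countP (fun j : ℕ => decide (tc D ((j : ℤ) + 1) ≠ 0)) % 2 == 1) := by
  induction r with
  | zero =>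
    rw [show ((0 : ℕ) : ℤ) = 0 by simp, h.D0]
    rfl
  | succ r ih =>
    rw [List.range_succ, List.countP_append]
    have ht := h.poly.turn (r : ℤ)
    have hc : ((r + 1 : ℕ) : ℤ) = (r : ℤ) + 1 := by push_cast; ring
    by_cases h0 : D ((r : ℤ) + 1) = D r
    · have h1 : tc D ((r : ℤ) + 1) = 0 := (tc_zero_iff D _).2 (by rw [add_sub_cancel_right]; exact h0)
      rw [hc, h0, ih]
      simp [h1]
    · have h1 : tc D ((r : ℤ) + 1) ≠ 0 := by
        intro hh
        have := (tc_zero_iff D _).1 hh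
        rw [add_sub_cancel_right] at this
        exact h0 this
      have h2 : par (D ((r : ℤ) + 1)) = !par (D (r : ℤ)) := by
        rcases ht with ht | ht | ht
        · exact absurd ht h0
        · rw [ht, par_add_one]
        · rw [ht, par_sub_one]
      rw [hc, h2, ih]
      have h3 : (([r] : List ℕ).countP (fun j : ℕ => decide (tc D ((j : ℤ) + 1) ≠ 0))) = 1 := by
        simp [h1]
      rw [h3]
      generalize (List.range r).countP (fun j : ℕ => decide (tc D ((j : ℤ) + 1) ≠ 0)) = N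
      rcases Nat.mod_two_eq_zero_or_one N with h4 | h4
      · rw [h4, show (N + 1) % 2 = 1 by omega]; rfl
      · rw [h4, show (N + 1) % 2 = 0 by omega]; rfl

/-- the conclusion for the normalised polygon -/
theorem Nrm.concl (h : Nrm V L P D np) : ∃ r : ℕ, par (D (r : ℤ)) = false ∧
    ∃ W ∈ words22, W.length = L ∧ ∀ j : ℕ, j < L → W.getD j 0 = tc D ((r : ℤ) + j) := by
  have hc : Concl L D := go_sound h 25 2 _ _ _ _ _ _ _ _ _ _ _ (inv_two h) big
  unfold Concl at hc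
  obtain ⟨r, hr, hpar, W, hW, hWL, hj⟩ := leaf_ok _ hc
  have hlen : ((List.range L).map fun j : ℕ => tc D (j : ℤ)).length = L := by simp
  rw [hlen] at hr hWL hj
  have hget : ∀ j < L, ((List.range L).map fun j : ℕ => tc D (j : ℤ)).getD j 0 = tc D (j : ℤ) := by
    intro j hj
    rw [List.getD_eq_getElem _ _ (by rw [hlen]; exact hj)]
    simp
  refine ⟨r, ?_, W, hW, hWL, fun j hjL => ?_⟩
  · rw [par_count h r]
    have : (List.range r).countP (fun j : ℕ => decide (tc D ((j : ℤ) + 1) ≠ 0)) =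
        (List.range r).countP (fun j => decide
          (((List.range L).map fun j : ℕ => tc D (j : ℤ)).getD (j + 1) 0 ≠ 0)) := by
      refine List.countP_congr fun j hj => ?_
      rw [List.mem_range] at hj
      rw [hget (j + 1) (by omega)]
      push_cast
      rfl
    rw [this, hpar]
    rfl
  · rw [hj j hjL, hget _ (Nat.mod_lt _ (by omega))]
    rcases Nat.lt_or_ge (r + j) L with h1 | h1
    · rw [Nat.mod_eq_of_lt h1]
      push_cast
      rfl
    · have h2 : (r + j) % L = r + j - L := by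
        rw [Nat.mod_eq_sub_mod h1, Nat.mod_eq_of_lt (by omega)]
      rw [h2, ← tc_per h.poly.perd]
      congr 1
      omega

/-! ### Normalisation -/

def rot (c : ZMod 6) (u : Pt) : Pt :=
  (u.1 * (e (-c)).1 + u.2 * (e (1 - c)).1, u.1 * (e (-c)).2 + u.2 * (e (1 - c)).2)

theorem rot_e : ∀ c k : ZMod 6, rot c (e k) = e (k - c) := by decide

theorem rot_add (c : ZMod 6) (u v : Pt) : rot c (u + v) = rot c u + rot c v := by
  unfold rot
  simp only [Prod.fst_add, Prod.snd_add]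
  refine Prod.ext ?_ ?_
  · simp only [Prod.fst_add]; ring
  · simp only [Prod.snd_add]; ring

theorem rot_sub (c : ZMod 6) (u v : Pt) : rot c (u - v) = rot c u - rot c v := by
  have := rot_add c (u - v) v
  rw [sub_add_cancel] at this
  rw [this, add_sub_cancel_right]

theorem rot_det : ∀ c : ZMod 6,
    (e (-c)).1 * (e (1 - c)).2 - (e (1 - c)).1 * (e (-c)).2 = 1 := by decide

theorem rot_zero {c : ZMod 6} {u : Pt} (h : rot c u = 0) : u = 0 := by
  have h1 : u.1 * (e (-c)).1 + u.2 * (e (1 - c)).1 = 0 := congrArg Prod.fst h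
  have h2 : u.1 * (e (-c)).2 + u.2 * (e (1 - c)).2 = 0 := congrArg Prod.snd h
  have h3 := rot_det c
  refine Prod.ext ?_ ?_
  · simp only [Prod.fst_zero]
    linear_combination (-u.1) * h3 + (e (1 - c)).2 * h1 - (e (1 - c)).1 * h2
  · simp only [Prod.snd_zero]
    linear_combination (-u.2) * h3 - (e (-c)).2 * h1 + (e (-c)).1 * h2

theorem rot_inj {c : ZMod 6} {u v : Pt} (h : rot c u = rot c v) : u = v := by
  have h1 : rot c (u - v) = 0 := by rw [rot_sub, h, sub_self]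
  exact sub_eq_zero.1 (rot_zero h1)

theorem par_sub : ∀ x c : ZMod 6, par (x - c) = xor (par x) (par c) := by decide

/-- shifting the summation over a period -/
theorem sum_period {f : ℤ → ℤ} (hf : ∀ k, f (k + L) = f k) (a : ℤ) :
    ∑ k ∈ range L, f (a + (k : ℤ)) = ∑ k ∈ range L, f (k : ℤ) := by
  have hs : ∀ a : ℤ, ∑ k ∈ range L, f (a + 1 + (k : ℤ)) = ∑ k ∈ range L, f (a + (k : ℤ)) := by
    intro a
    have h1 := Finset.sum_range_succ (fun k : ℕ => f (a + (k : ℤ))) L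
    have h2 := Finset.sum_range_succ' (fun k : ℕ => f (a + (k : ℤ))) L
    have h3 : f (a + (L : ℤ)) = f (a + ((0 : ℕ) : ℤ)) := by
      rw [hf, Nat.cast_zero, add_zero]
    have h4 : ∑ k ∈ range L, f (a + ((k + 1 : ℕ) : ℤ)) = ∑ k ∈ range L, f (a + 1 + (k : ℤ)) := by
      refine Finset.sum_congr rfl fun k _ => ?_
      congr 1
      push_cast
      ring
    rw [h4] at h2
    rw [h1, h3] at h2
    linarith
  induction a using Int.induction_on with
  | zero => simp
  | succ n ih => rw [hs, ih]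
  | pred n ih =>
    rw [← ih, ← hs]
    refine Finset.sum_congr rfl fun k _ => ?_
    congr 1
    ring

theorem chi_e : ∀ k : ZMod 6, (((e k).1 - (e k).2 : ℤ) : ZMod 3) = if par k then -1 else 1 := by
  decide

theorem card_filter_eq (q : ℕ → Prop) [DecidablePred q] :
    (((range L).filter q).card : ℤ) = ∑ k ∈ range L, if q k then (1 : ℤ) else 0 := by
  rw [Finset.card_filter]
  push_cast
  rfl

end T5

end Pool.Agent.H171R2.Tri
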